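import Pool.Agent.X208.IU.Main

/-! ZFC refutes long `Σ₁`-definable well-orderings above limits of `ω` measurable cardinals. -/

set_option autoImplicit false

open Cardinal Ordinal Pool.Agent.X208.IU

namespace Pool.Agent.Results.MP_13a02f_lc.NoLongWellOrder

universe u

/-- `κ` is the supremum of a strictly increasing sequence of measurable cardinals of length
`ω`. -/
def IsOmegaLimitOfMeasurables (κ : Cardinal.{u}) : Prop :=
  ∃ f : ℕ → Cardinal.{u}, StrictMono f ∧ (∀ n, IsMeasurable (f n)) ∧ κ = ⨆ n, f n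

/-- Let `κ` be a limit of `ω`-many measurable cardinals and let `R` be a well-ordering of a set
`D` of subsets of `κ` of cardinality greater than `κ`. Then `R` is not definable by a
`Σ₁`-formula with the parameter `κ`. -/
theorem result (κ : Cardinal.{u}) (hκ : IsOmegaLimitOfMeasurables κ)
    (D : Set ZFSet.{u}) (hD : ∀ x ∈ D, x ⊆ κ.ord.toZFSet)
    (hcard : Cardinal.lift.{u + 1} κ < #D) (R : ZFSet.{u} → ZFSet.{u} → Prop)
    (hR : IsWellOrdering D R) : ¬ Sig1DefRel R κ.ord.toZFSet := by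
  refine no_long_wo_rel κ ?_ _ (Or.inr rfl) D hD hcard R hR
  obtain ⟨f, hf, hm, rfl⟩ := hκ
  have hbdd : BddAbove (Set.range f) := bddAbove_of_small
  have hlt : ∀ n, f n < ⨆ n, f n := fun n => (hf (Nat.lt_succ_self n)).trans_le (le_ciSup hbdd _)
  refine ⟨((zero_le).trans_lt (hlt 0)).ne', fun c hc => ?_⟩
  obtain ⟨n, hn⟩ := (lt_ciSup_iff hbdd).1 hc
  exact ⟨f n, hn, hlt n, hm n⟩

end Pool.Agent.Results.MP_13a02f_lc.NoLongWellOrder
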